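import Pool.Agent.Lib.MP_ed661f_ag.E.Bezout

/-!
Bezout's inequality with multiplicities for bidegrees (curves in the product of two lines), by a
dimension count on top of `E/Bezout.lean`.
-/

open MvPolynomial

namespace Pool.Agent.Lib.MP_ed661f_ag.Y

open Pool.Agent.Lib.MP_ed661f_ag.E

namespace Bq

/-- exponents with `e 0 < N`, `e 1 < h` -/
noncomputable def S (N h : ℕ) : Finset (Fin 2 →₀ ℕ) :=
  (Finset.range N ×ˢ Finset.range h).image
    (fun x => Finsupp.single 0 x.1 + Finsupp.single 1 x.2)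

theorem mem_S {N h : ℕ} {e : Fin 2 →₀ ℕ} : e ∈ S N h ↔ e 0 < N ∧ e 1 < h := by
  unfold S
  simp only [Finset.mem_image, Finset.mem_product, Finset.mem_range]
  constructor
  · rintro ⟨⟨a, b⟩, ⟨h1, h2⟩, rfl⟩
    simpa using ⟨h1, h2⟩
  · rintro ⟨h1, h2⟩
    refine ⟨(e 0, e 1), ⟨h1, h2⟩, ?_⟩
    ext i
    fin_cases i <;> simp

theorem card_S (N h : ℕ) : (S N h).card = N * h := by
  unfold S
  rw [Finset.card_image_of_injective, Finset.card_product, Finset.card_range, Finset.card_range]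
  rintro ⟨a, b⟩ ⟨c, d⟩ h
  have h0 := DFunLike.congr_fun h 0
  have h1 := DFunLike.congr_fun h 1
  simp at h0 h1
  rw [h0, h1]

/-- polynomials of degree `< N` in the first and `< h` in the second variable -/
noncomputable def V (N h : ℕ) : Submodule ℂ (MvPolynomial (Fin 2) ℂ) :=
  restrictSupport ℂ (S N h : Set (Fin 2 →₀ ℕ))

instance (N h : ℕ) : FiniteDimensional ℂ (V N h) :=
  Module.Finite.of_basis (basisRestrictSupport ℂ (S N h : Set (Fin 2 →₀ ℕ)))

theorem finrank_V (N h : ℕ) : Module.finrank ℂ (V N h) = N * h := by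
  have := Module.finrank_eq_card_basis (basisRestrictSupport ℂ (S N h : Set (Fin 2 →₀ ℕ)))
  unfold V
  rw [this, ← card_S]
  simp

theorem mem_V {N h : ℕ} {u : MvPolynomial (Fin 2) ℂ} :
    u ∈ V N h ↔ ∀ e ∈ u.support, e 0 < N ∧ e 1 < h := by
  unfold V
  rw [mem_restrictSupport_iff]
  constructor
  · intro h1 e he
    exact mem_S.mp (h1 he)
  · intro h1 e he
    exact mem_S.mpr (h1 e he)

theorem mem_V' {N h : ℕ} {u : MvPolynomial (Fin 2) ℂ} (hu : u ≠ 0) :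
    u ∈ V N h ↔ u.degreeOf 0 < N ∧ u.degreeOf 1 < h := by
  rw [mem_V]
  obtain ⟨e₀, he₀⟩ := support_nonempty.mpr hu
  constructor
  · intro h1
    have h2 := h1 e₀ he₀
    constructor
    · rw [degreeOf_lt_iff (by omega)]
      intro e he
      exact (h1 e he).1
    · rw [degreeOf_lt_iff (by omega)]
      intro e he
      exact (h1 e he).2
  · rintro ⟨h1, h2⟩ e he
    have h3 := monomial_le_degreeOf 0 he
    have h4 := monomial_le_degreeOf 1 he
    exact ⟨by omega, by omega⟩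

theorem mul_mem_V {N h : ℕ} {a f : MvPolynomial (Fin 2) ℂ} (hf : f ≠ 0) :
    a * f ∈ V N h ↔ a ∈ V (N - f.degreeOf 0) (h - f.degreeOf 1) := by
  by_cases ha : a = 0
  · subst ha
    simp only [zero_mul, Submodule.zero_mem]
  · rw [mem_V' (mul_ne_zero ha hf), mem_V' ha, degreeOf_mul_eq ha hf, degreeOf_mul_eq ha hf]
    omega

theorem exists_surj (P : Finset (Fin 2 → ℂ)) (k : (Fin 2 → ℂ) → ℕ) :
    ∃ n₀ : ℕ, ∀ N h : ℕ, n₀ ≤ N → n₀ ≤ h → ∀ t : Bz.Idx P k → ℂ, ∃ u ∈ V N h, Bz.T P k u = t := by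
  obtain ⟨n₀, hn₀⟩ := Bz.exists_surj P k
  refine ⟨n₀, fun N h hN hh t => ?_⟩
  obtain ⟨u, hu, hut⟩ := hn₀ n₀ n₀ le_rfl le_rfl t
  refine ⟨u, ?_, hut⟩
  rw [Bz.mem_V] at hu
  rw [mem_V]
  intro e he
  have := hu e he
  exact ⟨by omega, by omega⟩

/-- multiples of `f` -/
noncomputable def mu (f : MvPolynomial (Fin 2) ℂ) (N h : ℕ) :
    Submodule ℂ (MvPolynomial (Fin 2) ℂ) :=
  (V (N - f.degreeOf 0) (h - f.degreeOf 1)).map (LinearMap.mulRight ℂ f)

theorem mem_mu {f : MvPolynomial (Fin 2) ℂ} {N h : ℕ} {u : MvPolynomial (Fin 2) ℂ} :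
    u ∈ mu f N h ↔ ∃ a ∈ V (N - f.degreeOf 0) (h - f.degreeOf 1), a * f = u := by
  unfold mu
  rw [Submodule.mem_map]
  rfl

instance (f : MvPolynomial (Fin 2) ℂ) (N h : ℕ) : FiniteDimensional ℂ (mu f N h) := by
  unfold mu
  infer_instance

theorem finrank_mu {f : MvPolynomial (Fin 2) ℂ} (hf : f ≠ 0) (N h : ℕ) :
    Module.finrank ℂ (mu f N h) = (N - f.degreeOf 0) * (h - f.degreeOf 1) := by
  rw [← finrank_V]
  unfold mu
  have hinj : Function.Injective (LinearMap.mulRight ℂ f) := by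
    intro a b hab
    exact mul_right_cancel₀ hf hab
  exact (Submodule.equivMapOfInjective _ hinj _).finrank_eq.symm

theorem mu_le {f : MvPolynomial (Fin 2) ℂ} (hf : f ≠ 0) (N h : ℕ) : mu f N h ≤ V N h := by
  intro u hu
  obtain ⟨a, ha, rfl⟩ := mem_mu.mp hu
  exact (mul_mem_V hf).mpr ha

theorem mu_inf {f g : MvPolynomial (Fin 2) ℂ} (hf : f ≠ 0) (hg : g ≠ 0) (hr : IsRelPrime f g)
    (N h : ℕ) : mu f N h ⊓ mu g N h = mu (f * g) N h := by
  apply le_antisymm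
  · rintro u ⟨h1, h2⟩
    obtain ⟨a, ha, hau⟩ := mem_mu.mp h1
    obtain ⟨c, hc, hcu⟩ := mem_mu.mp h2
    have h3 : f ∣ c * g := ⟨a, by rw [hcu, ← hau, mul_comm]⟩
    obtain ⟨e, rfl⟩ := hr.dvd_of_dvd_mul_right h3
    rw [mem_mu]
    refine ⟨e, ?_, by rw [← hcu]; ring⟩
    rw [← mul_mem_V (mul_ne_zero hf hg)]
    have h4 : e * (f * g) = u := by rw [← hcu]; ring
    rw [h4]
    exact mu_le hf N h h1
  · intro u hu
    obtain ⟨e, he, rfl⟩ := mem_mu.mp hu
    rw [← mul_mem_V (mul_ne_zero hf hg)] at he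
    refine ⟨mem_mu.mpr ⟨e * g, ?_, by ring⟩, mem_mu.mpr ⟨e * f, ?_, by ring⟩⟩
    · rw [← mul_mem_V hf]
      have : e * g * f = e * (f * g) := by ring
      rwa [this]
    · rw [← mul_mem_V hg]
      have : e * f * g = e * (f * g) := by ring
      rwa [this]

end Bq

/-- Bezout's inequality for bidegrees; the hypotheses on the multiplicities are inequalities
between orders -/
theorem bezout_ord {f g : MvPolynomial (Fin 2) ℂ} (hf : f ≠ 0) (hg : g ≠ 0) (h : IsRelPrime f g)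
    (P : Finset (Fin 2 → ℂ)) (k l : (Fin 2 → ℂ) → ℕ)
    (hl : ∀ p, Bz.Ord (l p) (tay p f)) (hk : ∀ p, Bz.Ord (k p) (tay p g)) :
    (∑ p ∈ P, (l p : ℤ) * k p) ≤
      (f.degreeOf 0 : ℤ) * g.degreeOf 1 + f.degreeOf 1 * g.degreeOf 0 := by
  obtain ⟨n₀, hn₀⟩ := Bq.exists_surj P (fun p => k p + l p)
  set af := f.degreeOf 0 with haf
  set ag := g.degreeOf 0 with hag
  set bf := f.degreeOf 1 with hbf
  set bg := g.degreeOf 1 with hbg
  set H : ℕ := n₀ + bf + bg with hH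
  set N : ℕ := n₀ + af + ag with hN
  set W := LinearMap.range (Bz.Th P k l f g) with hW
  set R := Bq.mu f N H ⊔ Bq.mu g N H with hR
  have hRV : R ≤ Bq.V N H := sup_le (Bq.mu_le hf N H) (Bq.mu_le hg N H)
  set Smap : Bq.V N H →ₗ[ℂ] ((Bz.Idx P (fun p => k p + l p) → ℂ) ⧸ W) :=
    W.mkQ.comp ((Bz.T P (fun p => k p + l p)).comp (Bq.V N H).subtype) with hS
  have hsurj : LinearMap.range Smap = ⊤ := by
    rw [LinearMap.range_eq_top]
    intro y
    obtain ⟨t, rfl⟩ := W.mkQ_surjective y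
    obtain ⟨u, hu, hut⟩ := hn₀ N H (by omega) (by omega) t
    exact ⟨⟨u, hu⟩, by rw [← hut]; rfl⟩
  have h1 := Smap.finrank_range_add_finrank_ker
  rw [hsurj, finrank_top, Bq.finrank_V] at h1
  have h2 : R.comap (Bq.V N H).subtype ≤ LinearMap.ker Smap := by
    rintro ⟨u, hu⟩ huR
    rw [LinearMap.mem_ker]
    show W.mkQ (Bz.T P (fun p => k p + l p) u) = 0
    rw [Submodule.mkQ_apply, Submodule.Quotient.mk_eq_zero]
    rw [Submodule.mem_comap] at huR
    obtain ⟨x, hx, y, hy, hxy⟩ := Submodule.mem_sup.mp huR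
    obtain ⟨a, _, rfl⟩ := Bq.mem_mu.mp hx
    obtain ⟨c, _, rfl⟩ := Bq.mem_mu.mp hy
    have h3 : u = a * f + c * g := hxy.symm
    rw [h3]
    exact Bz.T_mem_range P k l hl hk a c
  have h3 : Module.finrank ℂ R ≤ Module.finrank ℂ (LinearMap.ker Smap) := by
    rw [← (Submodule.comapSubtypeEquivOfLe hRV).finrank_eq]
    exact Submodule.finrank_mono h2
  have h4 := Submodule.finrank_sup_add_finrank_inf_eq (Bq.mu f N H) (Bq.mu g N H)
  rw [Bq.mu_inf hf hg h, Bq.finrank_mu hf, Bq.finrank_mu hg, Bq.finrank_mu (mul_ne_zero hf hg),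
    degreeOf_mul_eq hf hg, degreeOf_mul_eq hf hg] at h4
  have h5 := Submodule.finrank_quotient_add_finrank W
  have h6 : Module.finrank ℂ W ≤ Module.finrank ℂ (Bz.Par P k l → ℂ) := LinearMap.finrank_range_le _
  have h7 := Bz.card_Idx P (fun p => k p + l p)
  have h8 := Bz.card_Par P k l
  have h9 : ∑ p ∈ P, (((k p + l p : ℕ) : ℤ) * ((k p + l p : ℕ) + 1)) -
      ∑ p ∈ P, ((k p : ℤ) * (k p + 1) + l p * (l p + 1)) = 2 * ∑ p ∈ P, (l p : ℤ) * k p := by
    rw [← Finset.sum_sub_distrib, Finset.mul_sum]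
    refine Finset.sum_congr rfl fun p _ => ?_
    push_cast
    ring
  have e1 : N - af = n₀ + ag := by omega
  have e2 : N - ag = n₀ + af := by omega
  have e3 : N - (af + ag) = n₀ := by omega
  have e4 : H - bf = n₀ + bg := by omega
  have e5 : H - bg = n₀ + bf := by omega
  have e6 : H - (bf + bg) = n₀ := by omega
  rw [e1, e2, e3, e4, e5, e6] at h4
  zify at h1 h3 h4 h5 h6
  have hNN : (N : ℤ) = n₀ + af + ag := by rw [hN]; push_cast; ring
  have hHH : (H : ℤ) = n₀ + bf + bg := by rw [hH]; push_cast; ring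
  rw [hNN, hHH] at h1
  nlinarith

/-- Bezout's inequality with multiplicities for bidegrees -/
theorem bezout_rect {f g : MvPolynomial (Fin 2) ℂ} (hf : f ≠ 0) (hg : g ≠ 0)
    (h : IsRelPrime f g) (P : Finset (Fin 2 → ℂ)) :
    (∑ p ∈ P, (mlt p f : ℤ) * mlt p g) ≤
      (f.degreeOf 0 : ℤ) * g.degreeOf 1 + f.degreeOf 1 * g.degreeOf 0 :=
  bezout_ord hf hg h P (fun p => mlt p g) (fun p => mlt p f)
    (fun _ => (le_mlt_iff hf _).mp le_rfl) (fun _ => (le_mlt_iff hg _).mp le_rfl)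

/-- the same in natural numbers, with bounds for the degrees -/
theorem bezout_le {f g : MvPolynomial (Fin 2) ℂ} (hf : f ≠ 0) (hg : g ≠ 0)
    (h : IsRelPrime f g) (P : Finset (Fin 2 → ℂ)) {a b c d : ℕ} (ha : f.degreeOf 0 ≤ a)
    (hb : f.degreeOf 1 ≤ b) (hc : g.degreeOf 0 ≤ c) (hd : g.degreeOf 1 ≤ d) :
    ∑ p ∈ P, mlt p f * mlt p g ≤ a * d + b * c := by
  have h1 := bezout_rect hf hg h P
  have h2 : ((∑ p ∈ P, mlt p f * mlt p g : ℕ) : ℤ) ≤
      ((f.degreeOf 0 * g.degreeOf 1 + f.degreeOf 1 * g.degreeOf 0 : ℕ) : ℤ) := by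
    push_cast
    exact h1
  have h3 : ∑ p ∈ P, mlt p f * mlt p g ≤ f.degreeOf 0 * g.degreeOf 1 + f.degreeOf 1 * g.degreeOf 0 := by
    exact_mod_cast h2
  exact h3.trans (Nat.add_le_add (Nat.mul_le_mul ha hd) (Nat.mul_le_mul hb hc))

end Pool.Agent.Lib.MP_ed661f_ag.Y
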