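import Mathlib

/-!
# EveryN, Step 4: the reversed Cauchy-Schwarz inequality in a `1 + 14` Lorentz form

`q(e₁, e₂; μ; ν) = 2 e₁ e₂ - 2 ∑ μ_j² - ∑ ν_i²`, `j = 1..5`, `i = 1..4`.
-/

set_option autoImplicit false

open Finset

namespace Pool.Agent.Lib.MP_ed661f_ag.Y

/-- Two vectors of the closed forward cone of `2 e₁ e₂ - 2 ∑ μ² - ∑ ν²` have a nonnegative
product. -/
theorem cone_mul {ι κ : Type*} [Fintype ι] [Fintype κ] (a b w₁ w₂ : ℝ) (c m : ι → ℝ)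
    (al nu : κ → ℝ) (ha : 0 ≤ a) (hb : 0 ≤ b) (hw₁ : 0 ≤ w₁) (hw₂ : 0 ≤ w₂)
    (hD : 2 * ∑ j, c j ^ 2 + ∑ i, al i ^ 2 ≤ 2 * (a * b))
    (hW : 2 * ∑ j, m j ^ 2 + ∑ i, nu i ^ 2 ≤ 2 * (w₁ * w₂)) :
    2 * ∑ j, c j * m j + ∑ i, al i * nu i ≤ a * w₂ + b * w₁ := by
  have hcs := Finset.sum_mul_sq_le_sq_mul_sq (Finset.univ : Finset (ι ⊕ (ι ⊕ κ)))
    (Sum.elim c (Sum.elim c al)) (Sum.elim m (Sum.elim m nu))
  simp only [Fintype.sum_sum_type, Sum.elim_inl, Sum.elim_inr] at hcs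
  set S := ∑ j, c j * m j
  set T := ∑ i, al i * nu i
  set C2 := ∑ j, c j ^ 2
  set M2 := ∑ j, m j ^ 2
  set A2 := ∑ i, al i ^ 2
  set N2 := ∑ i, nu i ^ 2
  have h1 : (2 * S + T) ^ 2 ≤ (2 * C2 + A2) * (2 * M2 + N2) := by
    have e1 : S + (S + T) = 2 * S + T := by ring
    have e2 : C2 + (C2 + A2) = 2 * C2 + A2 := by ring
    have e3 : M2 + (M2 + N2) = 2 * M2 + N2 := by ring
    rwa [e1, e2, e3] at hcs
  have hM : 0 ≤ 2 * M2 + N2 := by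
    have : 0 ≤ M2 := Finset.sum_nonneg fun _ _ => sq_nonneg _
    have : 0 ≤ N2 := Finset.sum_nonneg fun _ _ => sq_nonneg _
    positivity
  have hab : 0 ≤ 2 * (a * b) := by positivity
  have h2 : (2 * C2 + A2) * (2 * M2 + N2) ≤ (2 * (a * b)) * (2 * (w₁ * w₂)) :=
    mul_le_mul hD hW hM hab
  have h3 : (2 * (a * b)) * (2 * (w₁ * w₂)) ≤ (a * w₂ + b * w₁) ^ 2 := by
    nlinarith [sq_nonneg (a * w₂ - b * w₁)]
  have hP : 0 ≤ a * w₂ + b * w₁ := by positivity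
  exact le_of_sq_le_sq_nonneg (h1.trans (h2.trans h3)) hP
where
  le_of_sq_le_sq_nonneg {x y : ℝ} (h : x ^ 2 ≤ y ^ 2) (hy : 0 ≤ y) : x ≤ y :=
    abs_le_of_sq_le_sq' h hy |>.2

/-- Step 4 of Theorem B: `W = Z + k (2,2;1,1,1,1,1;0)`. -/
theorem lorentz (a b e₁ e₂ k : ℝ) (c mu : Fin 5 → ℝ) (al nu : Fin 4 → ℝ)
    (ha : 0 ≤ a) (hb : 0 ≤ b) (he₁ : 0 ≤ e₁) (he₂ : 0 ≤ e₂)
    (hk : k = e₁ + e₂ - ∑ j, mu j) (hk1 : 1 ≤ k) (hab : a + b = ∑ j, c j)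
    (hD : ∑ i, al i ^ 2 ≤ 2 * (a * b - ∑ j, c j ^ 2))
    (hq : 2 * k - 4 ≤ 2 * e₁ * e₂ - 2 * ∑ j, mu j ^ 2 - ∑ i, nu i ^ 2) :
    2 * ∑ j, c j * mu j + ∑ i, al i * nu i ≤ a * e₂ + b * e₁ := by
  have hs : ∑ j : Fin 5, (mu j + k) ^ 2 = ∑ j, mu j ^ 2 + 2 * k * ∑ j, mu j + 5 * k ^ 2 := by
    simp only [Fin.sum_univ_five]
    ring
  have hc : ∑ j : Fin 5, c j * (mu j + k) = ∑ j, c j * mu j + k * ∑ j, c j := by
    simp only [Fin.sum_univ_five]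
    ring
  have hW : 2 * ∑ j, (mu j + k) ^ 2 + ∑ i, nu i ^ 2 ≤ 2 * ((e₁ + 2 * k) * (e₂ + 2 * k)) := by
    rw [hs]
    have hm : ∑ j, mu j = e₁ + e₂ - k := by linarith
    rw [hm]
    nlinarith [mul_nonneg (sub_nonneg.2 hk1) (by linarith : (0 : ℝ) ≤ k + 2)]
  have h := cone_mul a b (e₁ + 2 * k) (e₂ + 2 * k) c (fun j => mu j + k) al nu ha hb
    (by linarith) (by linarith) (by linarith) hW
  rw [hc, ← hab] at h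
  linarith

end Pool.Agent.Lib.MP_ed661f_ag.Y
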